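import Pool.Agent.H20.SM.Targets

/-!
# MP_347b49_nt, module SPL: primes which split completely
-/

set_option autoImplicit false

open NumberField NumberField.InfinitePlace Complex Filter Topology

namespace Pool.Agent.H68.SM

open Pool.Agent.H20.SM

variable {F : Type} [Field F] [NumberField F]

theorem ne_bot_of {p : ℕ} (hp : p.Prime) {P : Ideal (𝓞 F)} (h : (p : 𝓞 F) ∈ P) : P ≠ ⊥ := by
  rintro rfl
  rw [Ideal.mem_bot] at h
  exact hp.ne_zero (by exact_mod_cast h)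

theorem over_iff {p : ℕ} (hp : p.Prime) {P : Ideal (𝓞 F)} (hP : P.IsPrime) :
    (p : 𝓞 F) ∈ P ↔ P.LiesOver (Ideal.span {(p : ℤ)}) := by
  have hmax : (Ideal.span {(p : ℤ)}).IsMaximal :=
    PrincipalIdealRing.isMaximal_of_irreducible (Nat.prime_iff_prime_int.1 hp).irreducible
  constructor
  · intro h
    refine ⟨?_⟩
    refine hmax.eq_of_le (Ideal.IsPrime.under ℤ P).ne_top ?_
    rw [Ideal.span_singleton_le_iff_mem, Ideal.mem_comap]
    simpa using h
  · rintro ⟨h⟩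
    have : (p : ℤ) ∈ P.under ℤ := h ▸ Ideal.mem_span_singleton_self _
    simpa using Ideal.mem_comap.1 this

theorem norm_ge {p n : ℕ} (hp : p.Prime) {P : Ideal (𝓞 F)} (hP : P.IsPrime)
    (h : (p : 𝓞 F) ∈ P) (hn : Ideal.absNorm (Ideal.span {(p : 𝓞 F)}) = p ^ n) :
    p ≤ Ideal.absNorm P := by
  have h1 : Ideal.absNorm P ∣ p ^ n := by
    rw [← hn]
    exact Ideal.absNorm_dvd_absNorm_of_le ((Ideal.span_singleton_le_iff_mem _).2 h)
  obtain ⟨j, -, hj⟩ := (Nat.dvd_prime_pow hp).1 h1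
  rw [hj]
  refine Nat.le_self_pow ?_ p
  rintro rfl
  rw [pow_zero, Ideal.absNorm_eq_one_iff] at hj
  exact hP.ne_top hj

theorem pf_SPL : T_SPL := by
  intro F _ _ _ p hS
  classical
  obtain ⟨hp, hc⟩ := hS
  set n := Module.finrank ℚ F with hn
  have hn0 : 0 < n := Module.finrank_pos
  set S : Set (Ideal (𝓞 F)) := {P | P.IsPrime ∧ (p : 𝓞 F) ∈ P} with hSd
  have hfin : S.Finite := Set.finite_of_ncard_pos (by rw [hc]; exact hn0)
  have hpn : Ideal.absNorm (Ideal.span {(p : 𝓞 F)}) = p ^ n := by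
    rw [Ideal.absNorm_span_natCast, hn, RingOfIntegers.rank]
  have hmax : ∀ P ∈ S, P.IsMaximal := fun P hP => hP.1.isMaximal (ne_bot_of hp hP.2)
  have hcop : ∀ P ∈ hfin.toFinset, ∀ Q ∈ hfin.toFinset, P ≠ Q → IsCoprime P Q := by
    intro P hP Q hQ hne
    rw [Ideal.isCoprime_iff_sup_eq]
    exact Ideal.IsMaximal.coprime_of_ne (hmax P (hfin.mem_toFinset.1 hP))
      (hmax Q (hfin.mem_toFinset.1 hQ)) hne
  have hprod : ∏ P ∈ hfin.toFinset, P = ⨅ P ∈ hfin.toFinset, P :=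
    Ideal.prod_eq_iInf_of_pairwise_isCoprime (J := fun P => P)
      (fun P hP Q hQ hne => hcop P hP Q hQ hne)
  have hle : Ideal.span {(p : 𝓞 F)} ≤ ∏ P ∈ hfin.toFinset, P := by
    rw [hprod, Ideal.span_singleton_le_iff_mem]
    simp only [Submodule.mem_iInf]
    intro P hP
    exact (hfin.mem_toFinset.1 hP).2
  have hcard : hfin.toFinset.card = n := by
    rw [← hc, Set.ncard_eq_toFinset_card S hfin]
  have hdvd : ∏ P ∈ hfin.toFinset, Ideal.absNorm P ∣ p ^ n := by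
    rw [← map_prod, ← hpn]
    exact Ideal.absNorm_dvd_absNorm_of_le hle
  have hge : ∀ P ∈ hfin.toFinset, p ≤ Ideal.absNorm P := fun P hP =>
    norm_ge hp (hfin.mem_toFinset.1 hP).1 (hfin.mem_toFinset.1 hP).2 hpn
  have hup : ∏ P ∈ hfin.toFinset, Ideal.absNorm P ≤ p ^ n :=
    Nat.le_of_dvd (pow_pos hp.pos _) hdvd
  have heq : ∀ P ∈ hfin.toFinset, Ideal.absNorm P = p := by
    by_contra hcon
    push Not at hcon
    obtain ⟨P, hP, hne⟩ := hcon
    have h1 : ∏ _P ∈ hfin.toFinset, p < ∏ P ∈ hfin.toFinset, Ideal.absNorm P :=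
      Finset.prod_lt_prod (fun _ _ => hp.pos) hge ⟨P, hP, lt_of_le_of_ne (hge P hP) (Ne.symm hne)⟩
    rw [Finset.prod_const, hcard] at h1
    exact absurd hup (not_le.2 h1)
  have hI : Ideal.span {(p : 𝓞 F)} = ∏ P ∈ hfin.toFinset, P := by
    obtain ⟨J, hJ⟩ := Ideal.dvd_iff_le.2 hle
    have h1 : Ideal.absNorm (∏ P ∈ hfin.toFinset, P) = p ^ n := by
      rw [map_prod, Finset.prod_congr rfl heq, Finset.prod_const, hcard]
    have h2 : p ^ n = p ^ n * Ideal.absNorm J := by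
      conv_lhs => rw [← hpn, hJ, map_mul, h1]
    have h3 : Ideal.absNorm J = 1 := by
      have := pow_pos hp.pos n
      nlinarith
    rw [Ideal.absNorm_eq_one_iff] at h3
    rw [hJ, h3, Ideal.mul_top]
  refine ⟨hfin, ?_, ?_, ?_⟩
  · intro P hP hpP
    exact ⟨ne_bot_of hp hpP, heq P (hfin.mem_toFinset.2 ⟨hP, hpP⟩)⟩
  · intro x hx
    rw [hI, hprod]
    simp only [Submodule.mem_iInf]
    intro P hP
    exact hx P (hfin.mem_toFinset.1 hP).1 (hfin.mem_toFinset.1 hP).2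
  · intro P σ hP hpP hσ
    open scoped Pointwise in
    have hgal : IsGaloisGroup (F ≃ₐ[ℚ] F) ℤ (𝓞 F) := inferInstance
    have hlo : P.LiesOver (Ideal.span {(p : ℤ)}) := (over_iff hp hP).1 hpP
    have horb : MulAction.orbit (F ≃ₐ[ℚ] F) P = S := by
      rw [Algebra.IsInvariant.orbit_eq_primesOver ℤ (𝓞 F) (F ≃ₐ[ℚ] F) (Ideal.span {(p : ℤ)}) P]
      ext Q
      constructor
      · rintro ⟨h1, h2⟩
        exact ⟨h1, (over_iff hp h1).2 h2⟩
      · rintro ⟨h1, h2⟩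
        exact ⟨h1, (over_iff hp h1).1 h2⟩
    have hG : Nat.card (F ≃ₐ[ℚ] F) = n := IsGalois.card_aut_eq_finrank ℚ F
    have hidx := MulAction.index_stabilizer (F ≃ₐ[ℚ] F) P
    rw [horb, hc] at hidx
    have hst : MulAction.stabilizer (F ≃ₐ[ℚ] F) P = ⊥ := by
      have h1 := (MulAction.stabilizer (F ≃ₐ[ℚ] F) P).index_mul_card
      rw [hidx, hG] at h1
      have h2 : Nat.card (MulAction.stabilizer (F ≃ₐ[ℚ] F) P) = 1 := by
        have : n * Nat.card (MulAction.stabilizer (F ≃ₐ[ℚ] F) P) = n * 1 := by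
          rw [mul_one]; exact h1
        exact Nat.eq_of_mul_eq_mul_left hn0 this
      exact Subgroup.card_eq_one.1 h2
    have h3 : σ ∈ MulAction.stabilizer (F ≃ₐ[ℚ] F) P := by
      rw [MulAction.mem_stabilizer_iff]
      exact hσ
    rw [hst, Subgroup.mem_bot] at h3
    exact h3

end Pool.Agent.H68.SM
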