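import Pool.Agent.H20.SM.Targets
import Pool.Agent.H37.CV.All

/-!
# MP_347b49_nt, module DEg: the terms with a small relation
-/

set_option autoImplicit false

open NumberField NumberField.InfinitePlace Complex Filter Topology MeasureTheory

namespace Pool.Agent.H68.SM

open Pool.Agent.H20.SM Pool.Agent.H37.CV Pool.Agent.H28.RC Pool.Agent.H25.HK
open Pool.Agent.H96.CV (off_bound one_le_nm one_le_nS)

theorem pf_DEg : T_DEg := by
  classical
  intro K _ _ _ δ₀ C₀ hδ₀ hC₀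
  have hrho : 0 < rho K := dedekindZeta_residue_pos K
  obtain ⟨M₁, hM₁, hG1⟩ := a_GL K (1 / 2) (by norm_num)
  obtain ⟨CU, hU0, hU1, -⟩ := a_GU K
  obtain ⟨C₁, CS, hCS⟩ := a_VS K
  set δ : ℝ := min (δ₀ / 2) 1 with hδ
  have hδ0 : 0 < δ := lt_min (by positivity) one_pos
  have hδ1 : δ ≤ δ₀ / 2 := min_le_left _ _
  have hδ2 : δ ≤ 1 := min_le_right _ _
  -- constants
  set c₁ : ℝ := rho K / 2 * (C₀ + 1) + ‖C₁‖ with hc₁
  have hc₁0 : 0 ≤ c₁ := by positivity
  set c₂ : ℝ := 1 / 2 * rho K with hc₂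
  have hc₂0 : 0 < c₂ := by positivity
  set c₃ : ℝ := (c₁ + 12 * rho K) * |CU| / c₂ ^ 2 with hc₃
  have hc₃0 : 0 ≤ c₃ := by positivity
  set c₄ : ℝ := (|CU| * (1 + 96 / δ₀)) ^ 3 with hc₄
  have hc₄0 : 0 ≤ c₄ := by positivity
  set c₆ : ℝ := c₄ * |CS| * (32 / δ₀) with hc₆
  have hc₆0 : 0 ≤ c₆ := by positivity
  refine ⟨δ, c₃ + c₆ + 1, max M₁ 3, hδ0, by positivity,
    fun M Q hMM hQl hQu I J hI hJ hI' hJ' hIJ hsm => ?_⟩
  have e1 : M₁ ≤ M := (le_max_left _ _).trans hMM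
  have e4 : 3 ≤ M := (le_max_right _ _).trans hMM
  have hM1 : 1 ≤ M := by linarith
  have hM0 : 0 < M := by linarith
  have hQ0 : 0 < Q := lt_of_lt_of_le (by positivity) hQl
  have hQ1 : 1 ≤ Q := le_trans (Real.one_le_rpow hM1 (by positivity)) hQl
  have hlM : 1 ≤ Real.log M := by
    rw [← Real.log_exp 1]
    refine Real.log_le_log (Real.exp_pos _) ?_
    have := Real.exp_one_lt_d9
    linarith
  have hlM0 : 0 < Real.log M := by linarith
  have hlQ : Real.log Q ≤ C₀ * Real.log M := by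
    have h1 := Real.log_le_log hQ0 hQu
    rwa [Real.log_rpow hM0] at h1
  set w : ℝ := nm I * nm J with hw
  have hI1 := one_le_nm hI
  have hJ1 := one_le_nm hJ
  have hw1 : 1 ≤ w := one_le_mul_of_one_le_of_one_le hI1 hJ1
  have hw0 : 0 < w := by linarith
  have hwM : w ≤ M := by
    refine hsm.trans ?_
    conv_rhs => rw [← Real.rpow_one M]
    exact Real.rpow_le_rpow_of_exponent_le hM1 hδ2
  have hlw0 : 0 ≤ Real.log w := Real.log_nonneg hw1
  have hlwM : Real.log w ≤ Real.log M := Real.log_le_log hw0 hwM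
  have hnI : 1 ≤ nS np (pf I) := one_le_nS _
  have hnJ : 1 ≤ nS np (pf J) := one_le_nS _
  have hnI' : nS np (pf I) ≤ w :=
    (Pool.Agent.H81.CV.nS_pf hI).trans (le_mul_of_one_le_right (by linarith) hJ1)
  have hnJ' : nS np (pf J) ≤ w :=
    (Pool.Agent.H81.CV.nS_pf hJ).trans (le_mul_of_one_le_left (by linarith) hI1)
  have hlI : Real.log (nS np (pf I)) ≤ Real.log w := Real.log_le_log (by linarith) hnI'
  have hlJ : Real.log (nS np (pf J)) ≤ Real.log w := Real.log_le_log (by linarith) hnJ'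
  have hlI0 : 0 ≤ Real.log (nS np (pf I)) := Real.log_nonneg hnI
  have hlJ0 : 0 ≤ Real.log (nS np (pf J)) := Real.log_nonneg hnJ
  set D : ℝ := |CU| * (1 + Real.log w) with hD
  have hD0 : 0 ≤ D := by positivity
  have hDI : GS np (PM K M) M - GS np (PM K M) (M / nS np (pf I)) ≤ D := by
    refine (hU0 M _ hM1 hnI).trans ?_
    exact mul_le_mul (le_abs_self _) (by linarith) (by linarith) (abs_nonneg _)
  have hDJ : GS np (PM K M) M - GS np (PM K M) (M / nS np (pf J)) ≤ D := by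
    refine (hU0 M _ hM1 hnJ).trans ?_
    exact mul_le_mul (le_abs_self _) (by linarith) (by linarith) (abs_nonneg _)
  set E : ℝ := |CS| * M ^ (-(δ₀ / 16)) with hE
  have hE0 : 0 ≤ E := by positivity
  have hlow : M ^ (δ₀ / 2) ≤ Q / (M ^ 2 * w) := by
    rw [le_div_iff₀ (by positivity)]
    calc M ^ (δ₀ / 2) * (M ^ 2 * w) ≤ M ^ (δ₀ / 2) * (M ^ 2 * M ^ δ) := by
          gcongr
      _ = M ^ (δ₀ / 2 + (((2 : ℕ) : ℝ) + δ)) := by
          rw [← Real.rpow_natCast M, ← Real.rpow_add hM0, ← Real.rpow_add hM0]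
      _ ≤ M ^ (2 + δ₀) := by
          refine Real.rpow_le_rpow_of_exponent_le hM1 ?_
          push_cast
          linarith
      _ ≤ Q := hQl
  have hSm : ∀ Z : ℝ, Q / (M ^ 2 * w) ≤ Z → Z ≤ Q * M ^ 2 →
      ‖Sm (K := K) ⊤ Z - (((rho K / 2 * Real.log Z : ℝ) : ℂ) + C₁)‖ ≤ E := by
    intro Z hZ1 hZ2
    have hZq : M ^ (δ₀ / 2) ≤ Z := hlow.trans hZ1
    have hZ11 : 1 ≤ Z := le_trans (Real.one_le_rpow hM1 (by positivity)) hZq
    refine (hCS Z hZ11).trans ?_
    have b1 : Z ^ (-(1 / 8) : ℝ) ≤ M ^ (-(δ₀ / 16)) := by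
      have h1 := Real.rpow_le_rpow_of_nonpos (by positivity) hZq
        (show (-(1 / 8) : ℝ) ≤ 0 by norm_num)
      refine h1.trans (le_of_eq ?_)
      rw [← Real.rpow_mul hM0.le]
      congr 1
      ring
    have b8 : 0 ≤ Z ^ (-(1 / 8) : ℝ) := by positivity
    exact mul_le_mul (le_abs_self _) b1 b8 (abs_nonneg _)
  have main := off_bound a_CX a_CT a_CB a_GC K ⊤ I J Q M E D w C₁ hI hJ hI' hJ' hIJ hw hwM
    hQ1 hM1 hE0 hSm hDI hDJ
  set G : ℝ := GS np (PM K M) M with hG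
  have hGl : c₂ * Real.log M ≤ G := by
    have h1 := hG1 M e1
    calc c₂ * Real.log M = (1 - 1 / 2) * rho K * Real.log M := by
          rw [hc₂]; ring
      _ ≤ G := h1
  have hGp : 0 < G := lt_of_lt_of_le (by positivity) hGl
  have hGu : G ≤ |CU| * (1 + Real.log M) := by
    refine (hU1 M hM1).trans ?_
    have h1 : 0 ≤ 1 + Real.log M := by linarith
    exact mul_le_mul_of_nonneg_right (le_abs_self _) h1
  have hlq24 : 1 + Real.log M ≤ (1 + 96 / δ₀) * M ^ (δ₀ / 96) := by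
    have h1 := Real.log_le_rpow_div hM0.le (show 0 < δ₀ / 96 by positivity)
    have h2 : 1 ≤ M ^ (δ₀ / 96) := Real.one_le_rpow hM1 (by positivity)
    have h3 : M ^ (δ₀ / 96) / (δ₀ / 96) = (96 / δ₀) * M ^ (δ₀ / 96) := by
      field_simp
    rw [h3] at h1
    linarith
  have hG3 : G ^ 3 ≤ c₄ * M ^ (δ₀ / 32) := by
    have h1 : G ≤ (|CU| * (1 + 96 / δ₀)) * M ^ (δ₀ / 96) := by
      refine hGu.trans ?_
      rw [mul_assoc]
      exact mul_le_mul_of_nonneg_left hlq24 (abs_nonneg _)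
    refine (pow_le_pow_left₀ hGp.le h1 3).trans (le_of_eq ?_)
    rw [mul_pow _ (M ^ (δ₀ / 96)), ← Real.rpow_natCast (M ^ (δ₀ / 96)),
      ← Real.rpow_mul hM0.le, hc₄]
    congr 2
    push_cast
    ring
  have hqlog : M ^ (-(δ₀ / 32)) ≤ (32 / δ₀) / Real.log M := by
    have h1 := Real.log_le_rpow_div hM0.le (show 0 < δ₀ / 32 by positivity)
    rw [le_div_iff₀ hlM0, Real.rpow_neg hM0.le]
    have h2 : 0 < M ^ (δ₀ / 32) := by positivity
    rw [inv_mul_le_iff₀ h2]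
    refine h1.trans (le_of_eq ?_)
    field_simp
  have hGE : G ^ 3 * E ≤ c₆ / Real.log M := by
    calc G ^ 3 * E ≤ c₄ * M ^ (δ₀ / 32) * (|CS| * M ^ (-(δ₀ / 16))) :=
          mul_le_mul_of_nonneg_right hG3 hE0
      _ = c₄ * |CS| * (M ^ (δ₀ / 32) * M ^ (-(δ₀ / 16))) := by ring
      _ = c₄ * |CS| * M ^ (-(δ₀ / 32)) := by
          rw [← Real.rpow_add hM0]
          congr 2
          ring
      _ ≤ c₄ * |CS| * ((32 / δ₀) / Real.log M) := by gcongr
      _ = _ := by rw [hc₆]; ring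
  -- the main part
  have hΓ : ‖(((rho K / 2 * (Real.log Q - Real.log w) : ℝ) : ℂ) + C₁)‖ ≤ c₁ * Real.log M := by
    refine (norm_add_le _ _).trans ?_
    rw [Complex.norm_real, Real.norm_eq_abs, abs_mul,
      abs_of_nonneg (show 0 ≤ rho K / 2 by positivity)]
    have h1 : |Real.log Q - Real.log w| ≤ (C₀ + 1) * Real.log M := by
      have h2 : 0 ≤ Real.log Q := Real.log_nonneg hQ1
      have h5 : 0 ≤ C₀ * Real.log M := by positivity
      rw [abs_le]
      constructor <;> linarith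
    have h2 : ‖C₁‖ ≤ ‖C₁‖ * Real.log M := le_mul_of_one_le_right (norm_nonneg _) hlM
    have h3 := mul_le_mul_of_nonneg_left h1 (show 0 ≤ rho K / 2 by positivity)
    rw [hc₁]
    linarith
  have hlw3 : Real.log M + Real.log (nS np (pf I)) + Real.log (nS np (pf J)) ≤
      3 * Real.log M := by linarith
  have hmain : (‖(((rho K / 2 * (Real.log Q - Real.log w) : ℝ) : ℂ) + C₁)‖ +
        rho K / 2 * (8 * (Real.log M + Real.log (nS np (pf I)) + Real.log (nS np (pf J))))) * D /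
          G ^ 2 ≤ c₃ / Real.log M * (1 + Real.log w) ^ 2 := by
    have h1 : ‖(((rho K / 2 * (Real.log Q - Real.log w) : ℝ) : ℂ) + C₁)‖ +
        rho K / 2 * (8 * (Real.log M + Real.log (nS np (pf I)) + Real.log (nS np (pf J)))) ≤
        (c₁ + 12 * rho K) * Real.log M := by
      have h2 := mul_le_mul_of_nonneg_left hlw3 (show 0 ≤ rho K / 2 * 8 by positivity)
      linarith
    have h3 : (c₂ * Real.log M) ^ 2 ≤ G ^ 2 := pow_le_pow_left₀ (by positivity) hGl 2
    have h4 : 1 + Real.log w ≤ (1 + Real.log w) ^ 2 :=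
      le_self_pow₀ (by linarith) (by norm_num)
    calc _ ≤ (c₁ + 12 * rho K) * Real.log M * D / (c₂ * Real.log M) ^ 2 := by
          gcongr
      _ = c₃ / Real.log M * (1 + Real.log w) := by
          rw [hc₃, hD]
          field_simp
      _ ≤ c₃ / Real.log M * (1 + Real.log w) ^ 2 := by gcongr
  have h1w : 1 ≤ (1 + Real.log w) ^ 2 := one_le_pow₀ (by linarith)
  have hGE2 : G ^ 3 * E ≤ c₆ / Real.log M * (1 + Real.log w) ^ 2 :=
    hGE.trans (le_mul_of_one_le_right (by positivity) h1w)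
  refine main.trans ?_
  have hwt : wt (I, J) = w ^ (-(1 / 2) : ℝ) * 2 ^ ((pf I).card + (pf J).card) := by
    unfold wt
    rw [hw]
    ring
  have hwt0 : 0 ≤ wt (I, J) := by rw [hwt]; positivity
  calc w ^ (-(1 / 2) : ℝ) * 2 ^ ((pf I).card + (pf J).card) *
      ((‖(((rho K / 2 * (Real.log Q - Real.log w) : ℝ) : ℂ) + C₁)‖ +
        rho K / 2 * (8 * (Real.log M + Real.log (nS np (pf I)) + Real.log (nS np (pf J))))) * D /
          G ^ 2 + G ^ 3 * E)
      ≤ w ^ (-(1 / 2) : ℝ) * 2 ^ ((pf I).card + (pf J).card) *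
      (c₃ / Real.log M * (1 + Real.log w) ^ 2 + c₆ / Real.log M * (1 + Real.log w) ^ 2) :=
        mul_le_mul_of_nonneg_left (add_le_add hmain hGE2) (by positivity)
    _ = (c₃ + c₆) / Real.log M * wt (I, J) * (1 + Real.log w) ^ 2 := by rw [hwt]; ring
    _ ≤ (c₃ + c₆ + 1) / Real.log M * wt (I, J) * (1 + Real.log w) ^ 2 := by
        have h9 : c₃ + c₆ ≤ c₃ + c₆ + 1 := by linarith
        exact mul_le_mul_of_nonneg_right (mul_le_mul_of_nonneg_right
          (div_le_div_of_nonneg_right h9 (by positivity)) hwt0) (by positivity)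

end Pool.Agent.H68.SM
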